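import Mathlib

set_option autoImplicit false

namespace Pool.Agent.Lib.MP_cecf76_co

open Finset

/-- An index set `I` is `ε`-intersecting for the sequence `A₁, …, A_m` of subsets of an `n`-element
set if `|A_i ∩ A_j| > ε n` for all distinct `i, j ∈ I`. -/
def IsInter {n m : ℕ} (ε : ℝ) (A : Fin m → Finset (Fin n)) (I : Finset (Fin m)) : Prop :=
  ∀ i ∈ I, ∀ j ∈ I, i ≠ j → ε * n < ((A i ∩ A j).card : ℝ)

/-- `f(n, m, c, ε)`: the largest `k` (at most `m`) such that every sequence `A₁, …, A_m` of subsets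
of an `n`-element set with `|A_i| > c n` for all `i` has an `ε`-intersecting index set of size
`k`. -/
noncomputable def f (n m : ℕ) (c ε : ℝ) : ℕ :=
  sSup {k : ℕ | k ≤ m ∧ ∀ A : Fin m → Finset (Fin n), (∀ i, c * n < ((A i).card : ℝ)) →
    ∃ I : Finset (Fin m), I.card = k ∧ IsInter ε A I}

lemma IsInter.mono {n m : ℕ} {ε : ℝ} {A : Fin m → Finset (Fin n)} {I J : Finset (Fin m)}
    (h : IsInter ε A I) (hJ : J ⊆ I) : IsInter ε A J :=
  fun i hi j hj hij => h i (hJ hi) j (hJ hj) hij

lemma f_set_bdd (n m : ℕ) (c ε : ℝ) :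
    BddAbove {k : ℕ | k ≤ m ∧ ∀ A : Fin m → Finset (Fin n), (∀ i, c * n < ((A i).card : ℝ)) →
      ∃ I : Finset (Fin m), I.card = k ∧ IsInter ε A I} :=
  ⟨m, fun _ hk => hk.1⟩

lemma f_mem (n m : ℕ) (c ε : ℝ) : f n m c ε ≤ m ∧ ∀ A : Fin m → Finset (Fin n),
    (∀ i, c * n < ((A i).card : ℝ)) →
      ∃ I : Finset (Fin m), I.card = f n m c ε ∧ IsInter ε A I := by
  have hne : {k : ℕ | k ≤ m ∧ ∀ A : Fin m → Finset (Fin n), (∀ i, c * n < ((A i).card : ℝ)) →
      ∃ I : Finset (Fin m), I.card = k ∧ IsInter ε A I}.Nonempty :=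
    ⟨0, Nat.zero_le _, fun A _ => ⟨∅, rfl, by intro i hi; simp at hi⟩⟩
  exact Nat.sSup_mem hne (f_set_bdd n m c ε)

/-- To bound `f` from below it suffices to find a large `ε`-intersecting index set. -/
lemma le_f {n m : ℕ} {c ε : ℝ} (hn : 0 < n) (hc : c < 1) (L : ℝ)
    (h : ∀ A : Fin m → Finset (Fin n), (∀ i, c * n < ((A i).card : ℝ)) →
      ∃ I : Finset (Fin m), L ≤ (I.card : ℝ) ∧ IsInter ε A I) : L ≤ (f n m c ε : ℝ) := by
  have key : ⌈L⌉₊ ≤ f n m c ε := by
    apply le_csSup (f_set_bdd n m c ε)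
    constructor
    · obtain ⟨I, hI, -⟩ := h (fun _ => Finset.univ) (by
        intro i
        have : (0 : ℝ) < n := by exact_mod_cast hn
        simp only [Finset.card_univ, Fintype.card_fin]
        nlinarith)
      have h1 : ⌈L⌉₊ ≤ I.card := Nat.ceil_le.2 hI
      have h2 : I.card ≤ m := by simpa using Finset.card_le_univ I
      omega
    · intro A hA
      obtain ⟨I, hI, hI'⟩ := h A hA
      have h1 : ⌈L⌉₊ ≤ I.card := Nat.ceil_le.2 hI
      obtain ⟨J, hJ, hJc⟩ := Finset.exists_subset_card_eq h1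
      exact ⟨J, hJc, hI'.mono hJ⟩
  exact (Nat.le_ceil L).trans (by exact_mod_cast key)

/-- To bound `f` from above it suffices to exhibit one sequence without large `ε`-intersecting
index sets. -/
lemma f_le {n m : ℕ} {c ε : ℝ} (U : ℝ) (A : Fin m → Finset (Fin n))
    (hA : ∀ i, c * n < ((A i).card : ℝ))
    (h : ∀ I : Finset (Fin m), IsInter ε A I → (I.card : ℝ) ≤ U) : (f n m c ε : ℝ) ≤ U := by
  obtain ⟨I, hI, hI'⟩ := (f_mem n m c ε).2 A hA
  rw [← hI]
  exact h I hI'

/-! ### Lower bound: random samples -/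

lemma card_pairs (m : ℕ) :
    (2 : ℝ) * (((univ : Finset (Fin m × Fin m)).filter (fun p => p.1 < p.2)).card : ℝ)
      ≤ (m : ℝ) ^ 2 := by
  have h1 : ((univ : Finset (Fin m × Fin m)).filter (fun p => p.1 < p.2)).card
      = ((univ : Finset (Fin m × Fin m)).filter (fun p => p.2 < p.1)).card := by
    apply Finset.card_bij (fun p _ => (p.2, p.1))
    · intro p hp; simpa using hp
    · intro p _ q _ h
      simp only [Prod.mk.injEq] at h
      exact Prod.ext h.2 h.1
    · intro p hp
      exact ⟨(p.2, p.1), by simpa using hp, rfl⟩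
  have h2 : Disjoint ((univ : Finset (Fin m × Fin m)).filter (fun p => p.1 < p.2))
      ((univ : Finset (Fin m × Fin m)).filter (fun p => p.2 < p.1)) := by
    rw [Finset.disjoint_left]
    intro p hp hq
    simp only [mem_filter, mem_univ, true_and] at hp hq
    exact absurd hp (not_lt_of_gt hq)
  have h3 := Finset.card_le_univ (((univ : Finset (Fin m × Fin m)).filter (fun p => p.1 < p.2)) ∪
      ((univ : Finset (Fin m × Fin m)).filter (fun p => p.2 < p.1)))
  rw [Finset.card_union_of_disjoint h2, ← h1] at h3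
  simp only [Fintype.card_prod, Fintype.card_fin] at h3
  have h4 : (((((univ : Finset (Fin m × Fin m)).filter (fun p => p.1 < p.2)).card
      + ((univ : Finset (Fin m × Fin m)).filter (fun p => p.1 < p.2)).card : ℕ)) : ℝ)
      ≤ ((m * m : ℕ) : ℝ) := by exact_mod_cast h3
  push_cast at h4
  nlinarith

/-- Sampling `k` points of the ground set and keeping the sets that contain all of them. -/
theorem sample {n m : ℕ} (k : ℕ) {c ε : ℝ} (hn : 0 < n) (hc : 0 ≤ c) (hε : 0 ≤ ε)
    (A : Fin m → Finset (Fin n)) (hA : ∀ i, c * n < ((A i).card : ℝ)) :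
    ∃ I : Finset (Fin m), (m : ℝ) * c ^ k - (m : ℝ) ^ 2 / 2 * ε ^ k ≤ (I.card : ℝ) ∧
      IsInter ε A I := by
  classical
  have hnR : (0 : ℝ) < n := by exact_mod_cast hn
  let F : (Fin k → Fin n) → Finset (Fin m) := fun s => univ.filter (fun i => ∀ l, s l ∈ A i)
  let bad : Finset (Fin m × Fin m) :=
    univ.filter (fun p => p.1 < p.2 ∧ ((A p.1 ∩ A p.2).card : ℝ) ≤ ε * n)
  let B : (Fin k → Fin n) → Finset (Fin m × Fin m) := fun s =>
    bad.filter (fun p => ∀ l, s l ∈ A p.1 ∩ A p.2)
  have hF : ∑ s, ((F s).card : ℝ) = ∑ i, ((A i).card : ℝ) ^ k := by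
    have h1 : ∀ s, ((F s).card : ℝ) = ∑ i, if (∀ l, s l ∈ A i) then (1 : ℝ) else 0 := by
      intro s
      simp [F]
    simp_rw [h1]
    rw [Finset.sum_comm]
    apply Finset.sum_congr rfl
    intro i _
    have h2 : (univ.filter (fun s : Fin k → Fin n => ∀ l, s l ∈ A i))
        = Fintype.piFinset (fun _ : Fin k => A i) := by
      ext s; simp
    rw [← Finset.sum_filter, h2, Finset.sum_const, Fintype.card_piFinset]
    simp
  have hB : ∑ s, ((B s).card : ℝ) ≤ (m : ℝ) ^ 2 / 2 * (ε * n) ^ k := by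
    have h1 : ∀ s, ((B s).card : ℝ)
        = ∑ p ∈ bad, if (∀ l, s l ∈ A p.1 ∩ A p.2) then (1 : ℝ) else 0 := by
      intro s
      rw [← Finset.sum_filter]
      simp [B]
    simp_rw [h1]
    rw [Finset.sum_comm]
    have h3 : ∀ p ∈ bad, (∑ s : Fin k → Fin n, if (∀ l, s l ∈ A p.1 ∩ A p.2) then (1 : ℝ) else 0)
        ≤ (ε * n) ^ k := by
      intro p hp
      have h2 : (univ.filter (fun s : Fin k → Fin n => ∀ l, s l ∈ A p.1 ∩ A p.2))
          = Fintype.piFinset (fun _ : Fin k => A p.1 ∩ A p.2) := by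
        ext s; simp
      rw [← Finset.sum_filter, h2, Finset.sum_const, Fintype.card_piFinset]
      simp only [Finset.prod_const, Finset.card_univ, Fintype.card_fin, nsmul_eq_mul, mul_one,
        Nat.cast_pow]
      have h4 : ((A p.1 ∩ A p.2).card : ℝ) ≤ ε * n := by
        simp only [bad, mem_filter] at hp
        exact hp.2.2
      exact pow_le_pow_left₀ (by positivity) h4 k
    calc (∑ p ∈ bad, ∑ s : Fin k → Fin n, if (∀ l, s l ∈ A p.1 ∩ A p.2) then (1 : ℝ) else 0)
        ≤ ∑ p ∈ bad, (ε * n) ^ k := Finset.sum_le_sum h3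
      _ = (bad.card : ℝ) * (ε * n) ^ k := by rw [Finset.sum_const, nsmul_eq_mul]
      _ ≤ (m : ℝ) ^ 2 / 2 * (ε * n) ^ k := by
          apply mul_le_mul_of_nonneg_right _ (by positivity)
          have h5 : bad.card ≤ ((univ : Finset (Fin m × Fin m)).filter (fun p => p.1 < p.2)).card := by
            apply Finset.card_le_card
            intro p hp
            simp only [bad, mem_filter, mem_univ, true_and] at hp ⊢
            exact hp.1
          have h6 := card_pairs m
          have h7 : (bad.card : ℝ)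
              ≤ (((univ : Finset (Fin m × Fin m)).filter (fun p => p.1 < p.2)).card : ℝ) := by
            exact_mod_cast h5
          linarith
  have hsum : ∑ _s : Fin k → Fin n, ((m : ℝ) * c ^ k - (m : ℝ) ^ 2 / 2 * ε ^ k)
      ≤ ∑ s : Fin k → Fin n, (((F s).card : ℝ) - ((B s).card : ℝ)) := by
    have h0 : ∑ s : Fin k → Fin n, (((F s).card : ℝ) - ((B s).card : ℝ))
        = ∑ s, ((F s).card : ℝ) - ∑ s, ((B s).card : ℝ) := Finset.sum_sub_distrib _ _
    rw [h0, hF, Finset.sum_const, nsmul_eq_mul]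
    simp only [Finset.card_univ, Fintype.card_fun, Fintype.card_fin, Nat.cast_pow]
    have h1 : (m : ℝ) * (c * n) ^ k ≤ ∑ i, ((A i).card : ℝ) ^ k := by
      calc (m : ℝ) * (c * n) ^ k = ∑ _i : Fin m, (c * n) ^ k := by simp
        _ ≤ _ := Finset.sum_le_sum (fun i _ => pow_le_pow_left₀ (by positivity) (hA i).le k)
    have h2 : (n : ℝ) ^ k * ((m : ℝ) * c ^ k - (m : ℝ) ^ 2 / 2 * ε ^ k)
        = (m : ℝ) * (c * n) ^ k - (m : ℝ) ^ 2 / 2 * (ε * n) ^ k := by
      rw [mul_pow, mul_pow]; ring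
    rw [h2]
    linarith
  have hne : (univ : Finset (Fin k → Fin n)).Nonempty := by
    have : Nonempty (Fin n) := ⟨⟨0, hn⟩⟩
    exact Finset.univ_nonempty
  obtain ⟨s, -, hs⟩ := Finset.exists_le_of_sum_le hne hsum
  refine ⟨F s \ (B s).image Prod.fst, ?_, ?_⟩
  · refine hs.trans ?_
    have h1 : (F s).card ≤ (F s \ (B s).image Prod.fst).card + ((B s).image Prod.fst).card := by
      have := Finset.le_card_sdiff ((B s).image Prod.fst) (F s)
      omega
    have h2 : ((B s).image Prod.fst).card ≤ (B s).card := Finset.card_image_le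
    have h3 : ((F s).card : ℝ) ≤ ((F s \ (B s).image Prod.fst).card : ℝ) + ((B s).card : ℝ) := by
      exact_mod_cast h1.trans (by omega)
    linarith
  · intro i hi j hj hij
    by_contra hcon
    push Not at hcon
    rw [Finset.mem_sdiff] at hi hj
    have hi1 : ∀ l, s l ∈ A i := by simpa [F] using hi.1
    have hj1 : ∀ l, s l ∈ A j := by simpa [F] using hj.1
    rcases lt_or_gt_of_ne hij with h | h
    · apply hi.2
      rw [Finset.mem_image]
      refine ⟨(i, j), ?_, rfl⟩
      simp only [B, bad, mem_filter, mem_univ, true_and]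
      exact ⟨⟨h, hcon⟩, fun l => Finset.mem_inter.2 ⟨hi1 l, hj1 l⟩⟩
    · apply hj.2
      rw [Finset.mem_image]
      refine ⟨(j, i), ?_, rfl⟩
      simp only [B, bad, mem_filter, mem_univ, true_and]
      exact ⟨⟨h, by rwa [Finset.inter_comm]⟩, fun l => Finset.mem_inter.2 ⟨hj1 l, hi1 l⟩⟩

/-- The lower bound `f(n, m, c, ε) ≥ (c/2) m^{1 - θ}` with `θ = log (1/c) / log (c/ε)`. -/
theorem lower {n m : ℕ} {c ε : ℝ} (hn : 0 < n) (hm : 0 < m) (hε : 0 < ε) (hεc : ε < c)
    (hc : c < 1) :
    c / 2 * (m : ℝ) ^ (1 - Real.log (1 / c) / Real.log (c / ε)) ≤ (f n m c ε : ℝ) := by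
  have hc0 : 0 < c := hε.trans hεc
  have hmR : (1 : ℝ) ≤ m := by exact_mod_cast hm
  have hm0 : (0 : ℝ) < m := by linarith
  have hce : 1 < c / ε := by rwa [one_lt_div hε]
  have hlog : 0 < Real.log (c / ε) := Real.log_pos hce
  have hlogm : 0 ≤ Real.log m := Real.log_nonneg hmR
  apply le_f hn hc
  intro A hA
  set k := ⌈Real.log m / Real.log (c / ε)⌉₊ with hk
  obtain ⟨I, hI, hI'⟩ := sample k hn hc0.le hε.le A hA
  refine ⟨I, le_trans ?_ hI, hI'⟩
  -- `m ε^k ≤ c^k`
  have h1 : (m : ℝ) * ε ^ k ≤ c ^ k := by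
    have h2 : Real.log m ≤ k * Real.log (c / ε) := by
      have := Nat.le_ceil (Real.log m / Real.log (c / ε))
      rw [← hk, div_le_iff₀ hlog] at this
      exact this
    have h3 : (m : ℝ) ≤ (c / ε) ^ k := by
      rw [← Real.log_pow] at h2
      exact (Real.log_le_log_iff hm0 (by positivity)).1 h2
    rw [div_pow, le_div_iff₀ (by positivity)] at h3
    exact h3
  -- `c^k ≥ c m^{-θ}`
  have h4 : c * (m : ℝ) ^ (-(Real.log (1 / c) / Real.log (c / ε))) ≤ c ^ k := by
    have h5 : (k : ℝ) ≤ Real.log m / Real.log (c / ε) + 1 :=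
      (Nat.ceil_lt_add_one (by positivity)).le
    have h6 : c ^ (Real.log m / Real.log (c / ε) + 1) ≤ c ^ (k : ℝ) :=
      Real.rpow_le_rpow_of_exponent_ge hc0 hc.le h5
    rw [Real.rpow_natCast] at h6
    refine le_trans (le_of_eq ?_) h6
    rw [Real.rpow_add hc0, Real.rpow_one, mul_comm]
    congr 1
    rw [Real.rpow_def_of_pos hm0, Real.rpow_def_of_pos hc0]
    congr 1
    rw [one_div, Real.log_inv]
    field_simp
  have h7 : (m : ℝ) ^ (1 - Real.log (1 / c) / Real.log (c / ε))
      = m * (m : ℝ) ^ (-(Real.log (1 / c) / Real.log (c / ε))) := by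
    rw [sub_eq_add_neg, Real.rpow_add hm0, Real.rpow_one]
  rw [h7]
  calc c / 2 * (m * (m : ℝ) ^ (-(Real.log (1 / c) / Real.log (c / ε))))
      = m / 2 * (c * (m : ℝ) ^ (-(Real.log (1 / c) / Real.log (c / ε)))) := by ring
    _ ≤ m / 2 * c ^ k := by apply mul_le_mul_of_nonneg_left h4; positivity
    _ = m * c ^ k - m / 2 * c ^ k := by ring
    _ ≤ m * c ^ k - m / 2 * (m * ε ^ k) := by
        have := mul_le_mul_of_nonneg_left h1 (by positivity : (0 : ℝ) ≤ m / 2)
        linarith
    _ = m * c ^ k - m ^ 2 / 2 * ε ^ k := by ring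

/-! ### Lower bound for small `n`: a common subset -/

lemma choose_ratio {n a t : ℕ} {c ε : ℝ} (hεc : ε < c) (ht : (t : ℝ) ≤ ε * n + 1)
    (ha : c * n < (a : ℝ)) :
    (c - ε) ^ t * (n.choose t : ℝ) ≤ (a.choose t : ℝ) := by
  have h0 : (0 : ℝ) ≤ (c - ε) := by linarith
  have h1 : ((c - ε) * n) ^ t ≤ (a.descFactorial t : ℝ) := by
    have h2 : (a + 1 - t) ^ t ≤ a.descFactorial t := Nat.pow_sub_le_descFactorial a t
    have h3 : ((((a + 1 - t) ^ t : ℕ)) : ℝ) ≤ (a.descFactorial t : ℝ) := by exact_mod_cast h2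
    refine le_trans ?_ h3
    push_cast
    apply pow_le_pow_left₀ (by positivity)
    have h4 : ((a + 1 : ℕ) : ℝ) - (t : ℝ) ≤ ((a + 1 - t : ℕ) : ℝ) := by
      rw [sub_le_iff_le_add]
      have h4' : a + 1 ≤ (a + 1 - t) + t := by omega
      exact_mod_cast h4'
    push_cast at h4
    linarith
  have h5 : (n.descFactorial t : ℝ) ≤ (n : ℝ) ^ t := by
    exact_mod_cast Nat.descFactorial_le_pow n t
  have h6 : (c - ε) ^ t * (n.descFactorial t : ℝ) ≤ (a.descFactorial t : ℝ) := by
    calc (c - ε) ^ t * (n.descFactorial t : ℝ) ≤ (c - ε) ^ t * (n : ℝ) ^ t :=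
          mul_le_mul_of_nonneg_left h5 (by positivity)
      _ = ((c - ε) * n) ^ t := by rw [mul_pow]
      _ ≤ _ := h1
  rw [Nat.descFactorial_eq_factorial_mul_choose, Nat.descFactorial_eq_factorial_mul_choose] at h6
  push_cast at h6
  have h7 : (0 : ℝ) < (t.factorial : ℝ) := by exact_mod_cast Nat.factorial_pos t
  have h8 : (t.factorial : ℝ) * ((c - ε) ^ t * (n.choose t : ℝ)) ≤ t.factorial * (a.choose t : ℝ) := by
    calc (t.factorial : ℝ) * ((c - ε) ^ t * (n.choose t : ℝ))
        = (c - ε) ^ t * ((t.factorial : ℝ) * (n.choose t : ℝ)) := by ring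
      _ ≤ _ := h6
  exact le_of_mul_le_mul_left h8 h7

/-- The lower bound `f(n, m, c, ε) ≥ m (c - ε)^{ε n + 1}`, useful for `n` small compared to
`log m`. -/
theorem lower_small {n m : ℕ} {c ε : ℝ} (hn : 0 < n) (hε : 0 < ε) (hεc : ε < c) (hc : c < 1) :
    (m : ℝ) * (c - ε) ^ (ε * n + 1) ≤ (f n m c ε : ℝ) := by
  classical
  have hnR : (0 : ℝ) < n := by exact_mod_cast hn
  apply le_f hn hc
  intro A hA
  set t := ⌊ε * n⌋₊ + 1 with ht
  have ht1 : ε * n < (t : ℝ) := by
    have := Nat.lt_floor_add_one (ε * n)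
    rw [ht]; push_cast; exact this
  have ht2 : (t : ℝ) ≤ ε * n + 1 := by
    have := Nat.floor_le (by positivity : (0 : ℝ) ≤ ε * n)
    rw [ht]; push_cast; linarith
  have htn : t ≤ n := by
    have h1 : ε * n < n := by nlinarith
    have h2 : ⌊ε * n⌋₊ < n := (Nat.floor_lt (by positivity)).2 h1
    omega
  let F : Finset (Fin n) → Finset (Fin m) := fun T => univ.filter (fun i => T ⊆ A i)
  have hF : ∑ T ∈ powersetCard t (univ : Finset (Fin n)), ((F T).card : ℝ)
      = ∑ i, ((A i).card.choose t : ℝ) := by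
    have h1 : ∀ T, ((F T).card : ℝ) = ∑ i, if T ⊆ A i then (1 : ℝ) else 0 := by
      intro T; simp [F]
    simp_rw [h1]
    rw [Finset.sum_comm]
    apply Finset.sum_congr rfl
    intro i _
    have h2 : (powersetCard t (univ : Finset (Fin n))).filter (fun T => T ⊆ A i)
        = powersetCard t (A i) := by
      ext T
      simp only [mem_filter, mem_powersetCard, subset_univ, true_and]
      tauto
    rw [← Finset.sum_filter, h2, Finset.sum_const, card_powersetCard]
    simp
  have hsum : ∑ _T ∈ powersetCard t (univ : Finset (Fin n)), ((m : ℝ) * (c - ε) ^ t)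
      ≤ ∑ T ∈ powersetCard t (univ : Finset (Fin n)), ((F T).card : ℝ) := by
    rw [hF, Finset.sum_const, card_powersetCard, nsmul_eq_mul]
    simp only [Finset.card_univ, Fintype.card_fin]
    calc (n.choose t : ℝ) * ((m : ℝ) * (c - ε) ^ t)
        = ∑ _i : Fin m, (c - ε) ^ t * (n.choose t : ℝ) := by simp; ring
      _ ≤ _ := Finset.sum_le_sum (fun i _ => choose_ratio hεc ht2 (hA i))
  have hne : (powersetCard t (univ : Finset (Fin n))).Nonempty := by
    apply powersetCard_nonempty.2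
    simpa using htn
  obtain ⟨T, hT, hTs⟩ := Finset.exists_le_of_sum_le hne hsum
  refine ⟨F T, ?_, ?_⟩
  · refine le_trans ?_ hTs
    apply mul_le_mul_of_nonneg_left _ (by positivity)
    rw [← Real.rpow_natCast]
    exact Real.rpow_le_rpow_of_exponent_ge (by linarith) (by linarith) ht2
  · intro i hi j hj _
    simp only [F, mem_filter, mem_univ, true_and] at hi hj
    have h1 : T.card ≤ (A i ∩ A j).card := Finset.card_le_card (Finset.subset_inter hi hj)
    rw [(mem_powersetCard.1 hT).2] at h1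
    have h2 : (t : ℝ) ≤ ((A i ∩ A j).card : ℝ) := by exact_mod_cast h1
    linarith

/-! ### Upper bound: agreement in the cube -/

/-- Number of coordinates in which two binary words agree. -/
def agree {D : ℕ} (x y : Fin D → Bool) : ℕ := ∑ j, if x j = y j then 1 else 0

lemma agree_cons {D : ℕ} (b b' : Bool) (x y : Fin D → Bool) :
    agree (Fin.cons b x : Fin (D + 1) → Bool) (Fin.cons b' y) = (if b = b' then 1 else 0) + agree x y := by
  simp only [agree]
  rw [Fin.sum_univ_succ]
  simp only [Fin.cons_zero, Fin.cons_succ]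

/-- The section of a family of words at first letter `b`. -/
def sec {D : ℕ} (F : Finset (Fin (D + 1) → Bool)) (b : Bool) : Finset (Fin D → Bool) :=
  univ.filter (fun x => (Fin.cons b x : Fin (D + 1) → Bool) ∈ F)

lemma card_sec {D : ℕ} (F : Finset (Fin (D + 1) → Bool)) :
    F.card = (sec F false).card + (sec F true).card := by
  have h1 : ∀ b, (sec F b).card = ∑ x : Fin D → Bool,
      if (Fin.cons b x : Fin (D + 1) → Bool) ∈ F then 1 else 0 := by
    intro b; simp [sec]
  have h2 : F.card = ∑ x : Fin (D + 1) → Bool, if x ∈ F then 1 else 0 := by simp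
  rw [h2, h1, h1, ← (Fin.consEquiv (fun _ : Fin (D + 1) => Bool)).sum_comp, Fintype.sum_prod_type,
    Fintype.sum_bool, add_comm]
  rfl

lemma two_sum {P Q M u : ℝ} (hu : 1 ≤ u) (hM : 0 < M) (hP : P ≤ u * M) (hQ : Q ≤ u * M)
    (hPQ : P * Q ≤ M ^ 2) : P + Q ≤ (u + u⁻¹) * M := by
  have hu0 : 0 < u := by linarith
  have h1 : 0 ≤ (u * M - P) * (u * M - Q) := mul_nonneg (by linarith) (by linarith)
  have h2 : (P + Q) * (u * M) ≤ ((u + u⁻¹) * M) * (u * M) := by
    have h3 : ((u + u⁻¹) * M) * (u * M) = u ^ 2 * M ^ 2 + M ^ 2 := by field_simp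
    rw [h3]
    nlinarith
  exact le_of_mul_le_mul_right h2 (by positivity)

/-- Families `F`, `G` of binary words such that any `x ∈ F` and `y ∈ G` agree in at least `t`
coordinates satisfy `|F| |G| u^t ≤ (2 + u + 1/u)^D` for all `u ≥ 1`. -/
theorem cross (u : ℝ) (hu : 1 ≤ u) (D : ℕ) : ∀ (F G : Finset (Fin D → Bool)) (t : ℕ),
    (∀ x ∈ F, ∀ y ∈ G, t ≤ agree x y) →
      (F.card : ℝ) * G.card * u ^ t ≤ (2 + u + u⁻¹) ^ D := by
  have hu0 : 0 < u := by linarith
  induction D with
  | zero =>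
    intro F G t h
    have hF : F.card ≤ 1 := by
      have := Finset.card_le_univ F
      simpa using this
    have hG : G.card ≤ 1 := by
      have := Finset.card_le_univ G
      simpa using this
    rcases F.eq_empty_or_nonempty with rfl | ⟨x, hx⟩
    · simp
    rcases G.eq_empty_or_nonempty with rfl | ⟨y, hy⟩
    · simp
    have ht := h x hx y hy
    have ht0 : t = 0 := by simpa [agree] using ht
    subst ht0
    simp only [pow_zero, mul_one]
    have hF' : (F.card : ℝ) ≤ 1 := by exact_mod_cast hF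
    have hG' : (G.card : ℝ) ≤ 1 := by exact_mod_cast hG
    have : (0 : ℝ) ≤ F.card := by positivity
    have : (0 : ℝ) ≤ G.card := by positivity
    nlinarith
  | succ D ih =>
    intro F G t h
    set M : ℝ := (2 + u + u⁻¹) ^ D with hM
    have hM0 : 0 < M := by positivity
    have hdiff : ∀ b b' : Bool, b ≠ b' →
        ((sec F b).card : ℝ) * (sec G b').card * u ^ t ≤ M := by
      intro b b' hb
      apply ih
      intro x hx y hy
      simp only [sec, mem_filter, mem_univ, true_and] at hx hy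
      have := h _ hx _ hy
      rwa [agree_cons, if_neg hb, zero_add] at this
    have hsame : ∀ b : Bool, ((sec F b).card : ℝ) * (sec G b).card * u ^ t ≤ u * M := by
      intro b
      rcases Nat.eq_zero_or_pos t with ht | ht
      · subst ht
        have h1 := ih (sec F b) (sec G b) 0 (fun _ _ _ _ => Nat.zero_le _)
        nlinarith
      · have h1 := ih (sec F b) (sec G b) (t - 1) (by
          intro x hx y hy
          simp only [sec, mem_filter, mem_univ, true_and] at hx hy
          have := h _ hx _ hy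
          rw [agree_cons, if_pos rfl] at this
          omega)
        have h2 : u ^ t = u * u ^ (t - 1) := by
          rw [← pow_succ']
          congr 1
          omega
        rw [h2]
        nlinarith
    have e := card_sec F
    have e' := card_sec G
    have eF : (F.card : ℝ) = (sec F false).card + (sec F true).card := by exact_mod_cast e
    have eG : (G.card : ℝ) = (sec G false).card + (sec G true).card := by exact_mod_cast e'
    set a0 : ℝ := ((sec F false).card : ℝ)
    set a1 : ℝ := ((sec F true).card : ℝ)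
    set b0 : ℝ := ((sec G false).card : ℝ)
    set b1 : ℝ := ((sec G true).card : ℝ)
    have hU : (0 : ℝ) < u ^ t := by positivity
    have ha0 : 0 ≤ a0 := by positivity
    have ha1 : 0 ≤ a1 := by positivity
    have hb0 : 0 ≤ b0 := by positivity
    have hb1 : 0 ≤ b1 := by positivity
    have h00 := hsame false
    have h11 := hsame true
    have h01 := hdiff false true (by decide)
    have h10 := hdiff true false (by decide)
    have hPQ : (a0 * b0 * u ^ t) * (a1 * b1 * u ^ t) ≤ M ^ 2 := by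
      have h1 : (a0 * b1 * u ^ t) * (a1 * b0 * u ^ t) ≤ M * M :=
        mul_le_mul h01 h10 (by positivity) hM0.le
      calc (a0 * b0 * u ^ t) * (a1 * b1 * u ^ t) = (a0 * b1 * u ^ t) * (a1 * b0 * u ^ t) := by ring
        _ ≤ M * M := h1
        _ = M ^ 2 := by ring
    have h2 := two_sum hu hM0 h00 h11 hPQ
    rw [eF, eG, pow_succ]
    calc (a0 + a1) * (b0 + b1) * u ^ t
        = (a0 * b0 * u ^ t + a1 * b1 * u ^ t) + (a0 * b1 * u ^ t) + (a1 * b0 * u ^ t) := by ring
      _ ≤ (u + u⁻¹) * M + M + M := by linarith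
      _ = M * (2 + u + u⁻¹) := by ring

/-- A family of binary words of length `D` any two of which agree in at least `t` coordinates has
at most `2^D exp (-t²/(2D))` members. -/
theorem family_bound {D : ℕ} (hD : 0 < D) (F : Finset (Fin D → Bool)) (t : ℕ)
    (h : ∀ x ∈ F, ∀ y ∈ F, t ≤ agree x y) :
    (F.card : ℝ) ≤ 2 ^ D * Real.exp (-((t : ℝ) ^ 2 / (2 * D))) := by
  have hDR : (0 : ℝ) < D := by exact_mod_cast hD
  set l : ℝ := 2 * t / D with hl
  have hl0 : 0 ≤ l := by positivity
  have h1 := cross (Real.exp l) (Real.one_le_exp hl0) D F F t h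
  have h2 : 2 + Real.exp l + (Real.exp l)⁻¹ ≤ 4 * Real.exp (l ^ 2 / 4) := by
    have h3 := Real.cosh_le_exp_half_sq (l / 2)
    have h4 : 2 + Real.exp l + (Real.exp l)⁻¹ = 4 * (Real.cosh (l / 2)) ^ 2 := by
      rw [Real.cosh_eq, ← Real.exp_neg]
      have e1 : Real.exp l = Real.exp (l / 2) * Real.exp (l / 2) := by
        rw [← Real.exp_add]; congr 1; ring
      have e2 : Real.exp (-l) = Real.exp (-(l / 2)) * Real.exp (-(l / 2)) := by
        rw [← Real.exp_add]; congr 1; ring
      have e3 : Real.exp (l / 2) * Real.exp (-(l / 2)) = 1 := by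
        rw [← Real.exp_add]; simp
      rw [e1, e2]
      linear_combination (-2 : ℝ) * e3
    rw [h4]
    have h5 : Real.cosh (l / 2) ^ 2 ≤ Real.exp ((l / 2) ^ 2 / 2) ^ 2 :=
      pow_le_pow_left₀ (Real.cosh_pos _).le h3 2
    have h6 : Real.exp ((l / 2) ^ 2 / 2) ^ 2 = Real.exp (l ^ 2 / 4) := by
      rw [← Real.exp_nat_mul]; congr 1; push_cast; ring
    rw [h6] at h5
    linarith
  have h7 : (F.card : ℝ) ^ 2 ≤ (2 ^ D * Real.exp (-((t : ℝ) ^ 2 / (2 * D)))) ^ 2 := by
    have h8 : (F.card : ℝ) * F.card * Real.exp l ^ t ≤ (4 * Real.exp (l ^ 2 / 4)) ^ D :=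
      h1.trans (pow_le_pow_left₀ (by positivity) h2 D)
    rw [← Real.exp_nat_mul, mul_pow, ← Real.exp_nat_mul] at h8
    have h9 : (F.card : ℝ) ^ 2 ≤ 4 ^ D * Real.exp (D * (l ^ 2 / 4)) * Real.exp (-(t * l)) := by
      have h10 := mul_le_mul_of_nonneg_right h8 (Real.exp_pos (-(t * l))).le
      rw [mul_assoc _ (Real.exp (t * l)), ← Real.exp_add] at h10
      simp only [add_neg_cancel, Real.exp_zero, mul_one] at h10
      nlinarith
    refine h9.trans (le_of_eq ?_)
    rw [mul_pow, ← pow_mul, mul_comm D 2, pow_mul, ← Real.exp_nat_mul, mul_assoc, ← Real.exp_add]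
    norm_num
    rw [hl]
    field_simp
    ring
  exact (pow_le_pow_iff_left₀ (by positivity) (by positivity) (by norm_num)).1 h7

/-! ### Upper bound: the construction -/

section construction

variable {n D q r : ℕ}

/-- The set in the model ground set `(Fin q × Fin D × Bool) ⊕ Fin r` attached to a word `x`. -/
def model (q r : ℕ) {D : ℕ} (x : Fin D → Bool) : Finset ((Fin q × Fin D × Bool) ⊕ Fin r) :=
  univ.filter (fun w => Sum.elim (fun p => decide (x p.2.1 = p.2.2)) (fun _ => true) w = true)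

lemma card_model_inter (x y : Fin D → Bool) :
    (model q r x ∩ model q r y).card = q * agree x y + r := by
  have h1 : model q r x ∩ model q r y = univ.filter (fun w : (Fin q × Fin D × Bool) ⊕ Fin r =>
      Sum.elim (fun p => decide (x p.2.1 = p.2.2 ∧ y p.2.1 = p.2.2)) (fun _ => true) w = true) := by
    ext w
    rcases w with w | w <;> simp [model]
  rw [h1, Finset.card_filter, Fintype.sum_sum_type]
  simp only [Sum.elim_inl, Sum.elim_inr, decide_eq_true_eq, if_true, Finset.sum_const,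
    Finset.card_univ, Fintype.card_fin, smul_eq_mul, mul_one, Fintype.sum_prod_type]
  congr 1
  have h2 : q * agree x y = ∑ _a : Fin q, agree x y := by simp
  rw [h2]
  refine Finset.sum_congr rfl (fun a _ => ?_)
  simp only [agree]
  apply Finset.sum_congr rfl
  intro j _
  rw [Fintype.sum_bool]
  cases x j <;> cases y j <;> simp

lemma card_model (x : Fin D → Bool) : (model q r x).card = q * D + r := by
  have h := card_model_inter (q := q) (r := r) x x
  rw [Finset.inter_self] at h
  rw [h]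
  simp [agree]

/-- Core upper bound. -/
theorem upper_core {n m D : ℕ} {c ε : ℝ} (hD : 0 < D) (hc : c ≤ 1 / 2) (hε : 0 < ε) (hε1 : ε ≤ 1)
    (hDn : 4 * (D : ℝ) ≤ ε * n) (hDm : 2 ^ D ≤ m) :
    (f n m c ε : ℝ) ≤ 2 * m * Real.exp (-(ε ^ 2 * D / 2)) := by
  classical
  have hDR : (0 : ℝ) < D := by exact_mod_cast hD
  have hnR : (0 : ℝ) < n := by
    by_contra hcon
    push Not at hcon
    nlinarith
  have hn : 0 < n := by exact_mod_cast hnR
  obtain ⟨q, r, hqr, hr1, hr2⟩ : ∃ q r : ℕ, n = q * (2 * D) + r ∧ 1 ≤ r ∧ r ≤ 2 * D := by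
    refine ⟨(n - 1) / (2 * D), (n - 1) % (2 * D) + 1, ?_, by omega, ?_⟩
    · have h1 := Nat.div_add_mod' (n - 1) (2 * D)
      omega
    · have := Nat.mod_lt (n - 1) (show 0 < 2 * D by omega)
      omega
  have hqrR : (n : ℝ) = q * (2 * D) + r := by rw [hqr]; push_cast; ring
  have hr2R : (r : ℝ) ≤ 2 * D := by exact_mod_cast hr2
  have hr1R : (1 : ℝ) ≤ r := by exact_mod_cast hr1
  -- identification of the ground set with the model
  have ecard : Fintype.card (Fin n) = Fintype.card ((Fin q × Fin D × Bool) ⊕ Fin r) := by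
    simp only [Fintype.card_fin, Fintype.card_sum, Fintype.card_prod, Fintype.card_bool]
    rw [hqr]; ring
  let e : (Fin q × Fin D × Bool) ⊕ Fin r ≃ Fin n := (Fintype.equivOfCardEq ecard).symm
  -- identification of the words
  have ecard' : Fintype.card (Fin (2 ^ D)) = Fintype.card (Fin D → Bool) := by simp
  let e' : Fin (2 ^ D) ≃ (Fin D → Bool) := Fintype.equivOfCardEq ecard'
  have hN : 0 < 2 ^ D := by positivity
  let h : Fin m → (Fin D → Bool) := fun i => e' ⟨i.val % 2 ^ D, Nat.mod_lt _ hN⟩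
  let A : Fin m → Finset (Fin n) := fun i => (model q r (h i)).map e.toEmbedding
  have hAcard : ∀ i, (A i).card = q * D + r := by
    intro i
    simp only [A, Finset.card_map, card_model]
  have hAinter : ∀ i j, (A i ∩ A j).card = q * agree (h i) (h j) + r := by
    intro i j
    simp only [A, ← Finset.map_inter, Finset.card_map, card_model_inter]
  apply f_le _ A
  · intro i
    rw [hAcard i]
    push_cast
    have : c * n ≤ 1 / 2 * n := mul_le_mul_of_nonneg_right hc hnR.le
    rw [hqrR] at this ⊢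
    nlinarith
  intro I hI
  set F := I.image h with hF
  set t := ⌈ε * D⌉₊ with ht
  have htD : t ≤ D := by
    apply Nat.ceil_le.2
    nlinarith
  -- members of `F` agree in at least `t` coordinates
  have hagree : ∀ x ∈ F, ∀ y ∈ F, t ≤ agree x y := by
    intro x hx y hy
    by_cases hxy : x = y
    · subst hxy
      have : agree x x = D := by simp [agree]
      rw [this]; exact htD
    obtain ⟨i, hi, rfl⟩ := Finset.mem_image.1 hx
    obtain ⟨j, hj, rfl⟩ := Finset.mem_image.1 hy
    have hij : i ≠ j := by rintro rfl; exact hxy rfl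
    have h1 := hI i hi j hj hij
    rw [hAinter i j] at h1
    push_cast at h1
    apply Nat.ceil_le.2
    set g : ℝ := (agree (h i) (h j) : ℝ) with hg
    have hg0 : 0 ≤ g := by positivity
    -- `q g > ε n - 2D` and `2 D q ≤ n`
    have h2 : ε * n - 2 * D < q * g := by linarith
    have h3 : (q : ℝ) * (2 * D) ≤ n := by rw [hqrR]; linarith
    by_contra hcon
    push Not at hcon
    have h4 : (q : ℝ) * g ≤ q * (ε * D) := mul_le_mul_of_nonneg_left hcon.le (by positivity)
    have h5 : (q : ℝ) * (ε * D) ≤ ε * n / 2 := by nlinarith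
    linarith
  have hFb := family_bound hD F t hagree
  -- fibres
  have hfib : ∀ a ∈ F, (I.filter (fun i => h i = a)).card ≤ m / 2 ^ D + 1 := by
    intro a _
    have h1 : (I.filter (fun i => h i = a)).card ≤ (Finset.range (m / 2 ^ D + 1)).card := by
      apply Finset.card_le_card_of_injOn (fun i => i.val / 2 ^ D)
      · intro i _
        simp only [Finset.coe_range, Set.mem_Iio]
        have := Nat.div_le_div_right (c := 2 ^ D) i.isLt.le
        omega
      · intro i hi j hj hij
        simp only [Finset.coe_filter, Set.mem_ofPred_eq] at hi hj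
        have h2 : h i = h j := by rw [hi.2, hj.2]
        have h3 : i.val % 2 ^ D = j.val % 2 ^ D := by
          have := e'.injective h2
          simpa using this
        apply Fin.ext
        rw [← Nat.div_add_mod i.val (2 ^ D), ← Nat.div_add_mod j.val (2 ^ D), h3]
        congr 2
    simpa using h1
  have hcardI : I.card ≤ (m / 2 ^ D + 1) * F.card :=
    Finset.card_le_mul_card_image (f := h) I (m / 2 ^ D + 1) hfib
  have hcardI' : (I.card : ℝ) ≤ (2 * m / 2 ^ D) * F.card := by
    have h1 : (I.card : ℝ) ≤ ((m / 2 ^ D + 1 : ℕ) : ℝ) * F.card := by exact_mod_cast hcardI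
    refine h1.trans (mul_le_mul_of_nonneg_right ?_ (by positivity))
    push_cast
    have h2 : (((m / 2 ^ D : ℕ)) : ℝ) ≤ (m : ℝ) / 2 ^ D := by
      have := Nat.cast_div_le (α := ℝ) (m := m) (n := 2 ^ D)
      push_cast at this
      exact this
    have h3 : (1 : ℝ) ≤ (m : ℝ) / 2 ^ D := by
      rw [one_le_div (by positivity)]
      exact_mod_cast hDm
    have h4 : 2 * (m : ℝ) / 2 ^ D = (m : ℝ) / 2 ^ D + (m : ℝ) / 2 ^ D := by ring
    rw [h4]
    linarith
  calc (I.card : ℝ) ≤ (2 * m / 2 ^ D) * F.card := hcardI'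
    _ ≤ (2 * m / 2 ^ D) * (2 ^ D * Real.exp (-((t : ℝ) ^ 2 / (2 * D)))) :=
        mul_le_mul_of_nonneg_left hFb (by positivity)
    _ = 2 * m * Real.exp (-((t : ℝ) ^ 2 / (2 * D))) := by field_simp
    _ ≤ 2 * m * Real.exp (-(ε ^ 2 * D / 2)) := by
        apply mul_le_mul_of_nonneg_left _ (by positivity)
        apply Real.exp_le_exp.2
        have h1 : ε * D ≤ t := Nat.le_ceil _
        have h2 : (ε * D) ^ 2 ≤ (t : ℝ) ^ 2 := pow_le_pow_left₀ (by positivity) h1 2
        have h3 : ε ^ 2 * D / 2 ≤ (t : ℝ) ^ 2 / (2 * D) := by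
          rw [div_le_div_iff₀ (by norm_num) (by positivity)]
          nlinarith
        linarith

/-- The upper bound `f(n, m, c, ε) ≤ 4 m exp (-(ε²/2) min (log₂ m, ε n / 4))` for `c ≤ 1/2`. -/
theorem upper {n m : ℕ} {c ε : ℝ} (hm : 0 < m) (hc : c ≤ 1 / 2) (hε : 0 < ε)
    (hε1 : ε ≤ 1) :
    (f n m c ε : ℝ) ≤
      4 * m * Real.exp (-(ε ^ 2 / 2 * min (Real.log m / Real.log 2) (ε * n / 4))) := by
  have hmR : (1 : ℝ) ≤ m := by exact_mod_cast hm
  have hlog2 : 0 < Real.log 2 := Real.log_pos (by norm_num)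
  have hlogm : 0 ≤ Real.log m := Real.log_nonneg hmR
  set μ := min (Real.log m / Real.log 2) (ε * n / 4) with hμ
  have hμ0 : 0 ≤ μ := le_min (by positivity) (by positivity)
  have hexp : Real.exp (ε ^ 2 / 2) ≤ 2 := by
    have h1 : ε ^ 2 / 2 ≤ 1 / 2 := by nlinarith
    have h2 : Real.exp (ε ^ 2 / 2) ≤ Real.exp (1 / 2) := Real.exp_le_exp.2 h1
    have h3 : Real.exp (1 / 2) ^ 2 ≤ 2 ^ 2 := by
      rw [← Real.exp_nat_mul]
      norm_num
      linarith [Real.exp_one_lt_d9]
    have h4 : Real.exp (1 / 2) ≤ 2 := by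
      exact (pow_le_pow_iff_left₀ (Real.exp_pos _).le (by norm_num) (by norm_num)).1 h3
    linarith
  set D := ⌊μ⌋₊ with hD
  have hDμ : (D : ℝ) ≤ μ := Nat.floor_le hμ0
  have hμD : μ < D + 1 := Nat.lt_floor_add_one μ
  rcases Nat.eq_zero_or_pos D with hD0 | hD0
  · have h1 : μ < 1 := by rw [hD0] at hμD; simpa using hμD
    have h2 : (f n m c ε : ℝ) ≤ m := by exact_mod_cast (f_mem n m c ε).1
    have h3 : Real.exp (-(ε ^ 2 / 2)) ≤ Real.exp (-(ε ^ 2 / 2 * μ)) := by
      apply Real.exp_le_exp.2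
      nlinarith [sq_nonneg ε]
    have h4 : 1 ≤ 2 * Real.exp (-(ε ^ 2 / 2)) := by
      rw [Real.exp_neg]
      have := Real.exp_pos (ε ^ 2 / 2)
      rw [← div_eq_mul_inv, one_le_div this]
      exact hexp
    have h5 : 1 ≤ 4 * Real.exp (-(ε ^ 2 / 2 * μ)) := by linarith
    calc (f n m c ε : ℝ) ≤ m := h2
      _ = m * 1 := by ring
      _ ≤ m * (4 * Real.exp (-(ε ^ 2 / 2 * μ))) := mul_le_mul_of_nonneg_left h5 (by positivity)
      _ = _ := by ring
  · have hDn : 4 * (D : ℝ) ≤ ε * n := by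
      have : (D : ℝ) ≤ ε * n / 4 := hDμ.trans (min_le_right _ _)
      linarith
    have hDm : 2 ^ D ≤ m := by
      have h1 : (D : ℝ) ≤ Real.log m / Real.log 2 := hDμ.trans (min_le_left _ _)
      rw [le_div_iff₀ hlog2, ← Real.log_pow] at h1
      have h2 : ((2 : ℝ)) ^ D ≤ m := (Real.log_le_log_iff (by positivity) (by linarith)).1 h1
      exact_mod_cast h2
    refine (upper_core hD0 hc hε hε1 hDn hDm).trans ?_
    have h1 : Real.exp (-(ε ^ 2 * D / 2)) ≤ Real.exp (ε ^ 2 / 2) * Real.exp (-(ε ^ 2 / 2 * μ)) := by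
      rw [← Real.exp_add]
      apply Real.exp_le_exp.2
      nlinarith [sq_nonneg ε, mul_nonneg (sq_nonneg ε) (by linarith : (0 : ℝ) ≤ D + 1 - μ)]
    have h2 : Real.exp (ε ^ 2 / 2) * Real.exp (-(ε ^ 2 / 2 * μ))
        ≤ 2 * Real.exp (-(ε ^ 2 / 2 * μ)) :=
      mul_le_mul_of_nonneg_right hexp (Real.exp_pos _).le
    calc 2 * (m : ℝ) * Real.exp (-(ε ^ 2 * D / 2))
        ≤ 2 * m * (2 * Real.exp (-(ε ^ 2 / 2 * μ))) :=
          mul_le_mul_of_nonneg_left (h1.trans h2) (by positivity)
      _ = _ := by ring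

end construction

end Pool.Agent.Lib.MP_cecf76_co
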